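import Pool.Agent.W34.GB.Defs

/-!
# A pair of numbers attached to Catalan's constant: the statements of the parts
-/

open Polynomial Pool.Agent.H337R2 Filter Topology MeasureTheory

namespace Pool.Agent.W34.GB

noncomputable section

/-! ### archimedean part -/

/-- A1: zone sum plus two line integrals -/
def A1s : Prop := ∀ (h σ : ℕ) (w u v : ℚ) (P : ℚ[X]), 3 ≤ h → (σ = 1 ∨ σ = 3) → P.natDegree + 2 ≤ 6 * h →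
  (((NL h σ w u v P : ℚ) : ℝ) : ℂ) =
    (((∑ l ∈ Finset.range (KK h), (Rq h ((l : ℚ) + (σ : ℚ) / 4) * P.eval ((l : ℚ) + (σ : ℚ) / 4) +
      w * (Rq h ((l : ℚ) + 1 / 2) * P.eval ((l : ℚ) + 1 / 2))) : ℚ) : ℝ) : ℂ)
    - (∫ y : ℝ, Rc h (ln h ((σ : ℝ) / 4) y) * aeval (ln h ((σ : ℝ) / 4) y) P * ((ker ((σ : ℝ) / 4) y : ℝ) : ℂ))
    - ((w : ℝ) : ℂ) * (∫ y : ℝ, Rc h (ln h (1 / 2) y) * aeval (ln h (1 / 2) y) P * ((ker (1 / 2) y : ℝ) : ℂ))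
    + (((((u : ℝ) - thX σ w) * ((∑ k ∈ sN h, pa (sN h) m3 P k 2 : ℚ) : ℝ) +
      ((v : ℝ) - thY σ w) * ((∑ k ∈ sN h, pa (sN h) m3 P k 3 : ℚ) : ℝ)) : ℝ) : ℂ)

/-- A2: size of the monic polynomials `mp n` -/
def A2s : Prop := ∃ D : ℝ, 0 < D ∧ ∀ (n : ℕ) (a y : ℝ), |a| ≤ 1 / 8 →
  ‖aeval ((a : ℂ) + y * Complex.I) (mp n)‖ ^ 2 ≤
    D * ((n : ℝ) + 2) * (n.factorial : ℝ) ^ 2 / 16 ^ n * Real.exp ((2 * Real.pi - 4 / ((n : ℝ) + 2)) * |y|)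

/-- A3: the supremum of `|R Z^2|` on the lines -/
def A3s : Prop := ∀ᶠ h : ℕ in atTop, ∀ y : ℝ,
  (∏ m ∈ Finset.Icc 1 (KK h), ((m : ℝ) ^ 2 + y ^ 2)) ^ 4 ≤
    Real.exp (2 * sR h) * (∏ m ∈ Finset.Ico (KK h) (KK h + 2 * h), ((m : ℝ) ^ 2 + y ^ 2)) ^ 3

/-- A4: the rows `j < 2 K` on the lines -/
def A4s : Prop := ∃ D : ℝ, 0 < D ∧ ∀ (h σ j : ℕ) (b y : ℝ), 3 ≤ h → (σ = 1 ∨ σ = 3) → j < 2 * KK h →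
  (b = (σ : ℝ) / 4 ∨ b = 1 / 2) →
  ‖Rc h (ln h b y)‖ * ‖aeval (ln h b y) (Zp σ j)‖ ^ 2 * Real.exp (-(2 * Real.pi * |y|)) ≤
    D * bb h j * (1 + y ^ 2)⁻¹

/-- A4z: the rows `j < 2 K` in the zone -/
def A4z : Prop := ∀ (h σ j l : ℕ), 3 ≤ h → (σ = 1 ∨ σ = 3) → j < 2 * KK h → l < 2 * KK h →
  |((Rq h (zn σ l) : ℚ) : ℝ)| * (((Zp σ j).eval (zn σ l) : ℚ) : ℝ) ^ 2 ≤ bb h j

/-- A5: the numerical value -/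
def A5s : Prop := ∀ᶠ h : ℕ in atTop,
  ∑ j ∈ Finset.range (3 * h), Real.log (aa h j) ≤ -(9 * (h : ℝ) ^ 2 * Real.log h) - 167 / 10 * (h : ℝ) ^ 2

/-- A7: crude bounds -/
def A7s : Prop := ∃ D : ℝ, 0 < D ∧ ∀ᶠ h : ℕ in atTop, ∀ σ : ℕ, (σ = 1 ∨ σ = 3) →
  (∀ i < 3 * h, ∀ j < 3 * h, ∀ e : ℕ, (e = 2 ∨ e = 3) →
    |((∑ k ∈ sN h, pa (sN h) m3 (PJ h σ i * PJ h σ j) k e : ℚ) : ℝ)| ≤ Real.exp (D * h * Real.log h)) ∧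
  (∀ j < 3 * h, Real.exp (-(D * h * Real.log h)) ≤ aa h j)

/-- A6: the archimedean bound -/
def AMain : Prop := ∀ (σ : ℕ) (w : ℚ), (σ = 1 ∨ σ = 3) → ∃ D : ℝ, 0 < D ∧ ∀ᶠ h : ℕ in atTop, ∀ u v : ℚ,
  |(u : ℝ) - thX σ w| ≤ Real.exp (-(D * h * Real.log h)) →
  |(v : ℝ) - thY σ w| ≤ Real.exp (-(D * h * Real.log h)) →
  |((DET h σ w u v : ℚ) : ℝ)| ≤ Real.exp (-(9 * (h : ℝ) ^ 2 * Real.log h) - 333 / 20 * (h : ℝ) ^ 2)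

/-! ### p-adic part -/

/-- P1: large primes -/
def Pbig : Prop := ∀ (h σ q p : ℕ) [Fact p.Prime] (w u v : ℚ), (σ = 1 ∨ σ = 3) → UInt q w u v → 2 ≤ h →
  2 * h < p → padicNorm p ((q : ℚ) ^ (3 * h) * DET h σ w u v) ≤ (p : ℚ) ^ EB h σ p

/-- P2: medium primes -/
def Pmed : Prop := ∀ (h σ q p : ℕ) [Fact p.Prime] (w u v : ℚ), (σ = 1 ∨ σ = 3) → UInt q w u v → 2 ≤ h →
  p ≤ 2 * h → 10 * h + 8 < p ^ 2 → padicNorm p ((q : ℚ) ^ (3 * h) * DET h σ w u v) ≤ (p : ℚ) ^ EM h σ p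

/-- P3: small primes -/
def Psmall : Prop := ∃ D : ℕ, ∀ (h σ q p : ℕ) [Fact p.Prime] (w u v : ℚ), (σ = 1 ∨ σ = 3) → UInt q w u v → 2 ≤ h →
  p ^ 2 ≤ 10 * h + 8 → padicNorm p ((q : ℚ) ^ (3 * h) * DET h σ w u v) ≤ (p : ℚ) ^ ES D h p

/-- P4: the sum over the primes -/
def PSum : Prop := ∀ (σ D : ℕ), (σ = 1 ∨ σ = 3) → ∀ᶠ h : ℕ in atTop, ∀ b : ℕ → ℝ,
  (∀ p, p.Prime → 2 * h < p → b p ≤ (EB h σ p : ℝ) * Real.log p) →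
  (∀ p, p.Prime → p ≤ 2 * h → 10 * h + 8 < p ^ 2 → b p ≤ (EM h σ p : ℝ) * Real.log p) →
  (∀ p, p.Prime → p ^ 2 ≤ 10 * h + 8 → b p ≤ (ES D h p : ℝ) * Real.log p) →
  ∑ p ∈ PQ h, b p ≤ 9 * (h : ℝ) ^ 2 * Real.log h + 83 / 5 * (h : ℝ) ^ 2

/-- P5: all primes -/
def PMain : Prop := ∀ σ : ℕ, (σ = 1 ∨ σ = 3) → ∀ᶠ h : ℕ in atTop, ∀ (q : ℕ) (w u v : ℚ), UInt q w u v →
  ∃ (S : Finset ℕ) (B : ℕ → ℝ), (∀ p ∈ S, p.Prime ∧ 0 < B p) ∧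
    (∀ p ∈ S, ((padicNorm p ((q : ℚ) ^ (3 * h) * DET h σ w u v) : ℚ) : ℝ) ≤ B p) ∧
    (∀ p, p.Prime → p ∉ S → padicNorm p ((q : ℚ) ^ (3 * h) * DET h σ w u v) ≤ 1) ∧
    ∑ p ∈ S, Real.log (B p) ≤ 9 * (h : ℝ) ^ 2 * Real.log h + 83 / 5 * (h : ℝ) ^ 2

/-! ### non-vanishing -/

/-- N1: the partial sums modulo `p` -/
def N1s : Prop := ∀ (p : ℕ) [Fact p.Prime], 50 ≤ p → ∀ σ : ℕ, (σ = 1 ∨ σ = 3) → ∀ w : ℚ, padicNorm p w ≤ 1 →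
  ∀ r j i : ℕ, 1 ≤ r → r ≤ p → j ≤ 1 → 1 ≤ i → i ≤ 3 →
  padicNorm p ((p : ℚ) ^ i * fw σ (KK p) w i (r + j * p) -
    fl (mm σ p) (d1 σ p r) (d2 p r) (d3 p r) w i j) ≤ (p : ℚ)⁻¹

/-- N2: the partial fraction coefficients modulo `p` -/
def N2s : Prop := ∀ (p : ℕ) [Fact p.Prime], 50 ≤ p → ∀ r : ℕ, 1 ≤ r → r ≤ p →
  ∃ c : ℚ, padicNorm p c = 1 ∧ ∀ e j i : ℕ, e ≤ 4 → j ≤ 1 → 1 ≤ i → i ≤ 3 →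
    padicNorm p (pa (sN p) m3 ((X + C (r : ℚ)) ^ e * oth p r 6) (r + j * p) i / (p : ℚ) ^ ((e : ℤ) + i - 6) -
      c * PowerSeries.coeff (3 - i) (ser j e)) ≤ (p : ℚ)⁻¹

/-- N2b: bound for the partial fraction coefficients -/
def N2b : Prop := ∀ (p : ℕ) [Fact p.Prime], 50 ≤ p → ∀ r a j i : ℕ, 1 ≤ r → r ≤ p → j ≤ 1 → 1 ≤ i → i ≤ 3 →
  ∀ F : ℚ[X], PB p 1 1 (TS (-((r + j * p : ℕ) : ℚ)) F) →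
    padicNorm p (pa (sN p) m3 ((X + C (r : ℚ)) ^ a * F) (r + j * p) i) ≤ (p : ℚ) ^ (6 - (a : ℤ) - i)

/-- N3: diagonal blocks -/
def N3s : Prop := ∀ (p : ℕ) [Fact p.Prime], 50 ≤ p → ∀ σ : ℕ, (σ = 1 ∨ σ = 3) → ∀ w u v : ℚ,
  padicNorm p w ≤ 1 → padicNorm p u ≤ 1 → padicNorm p v ≤ 1 → ∀ r : ℕ, 1 ≤ r → r ≤ p →
  ∃ c : ℚ, padicNorm p c = 1 ∧ ∀ e : ℕ, e ≤ 4 →
    padicNorm p ((p : ℚ) ^ (6 - (e : ℤ)) * NL p σ w u v ((X + C (r : ℚ)) ^ e * oth p r 6) -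
      c * Fm (mm σ p) (d1 σ p r) (d2 p r) (d3 p r) w e) ≤ (p : ℚ)⁻¹

/-- N4: off-diagonal blocks -/
def N4s : Prop := ∀ (p : ℕ) [Fact p.Prime], 50 ≤ p → ∀ σ : ℕ, (σ = 1 ∨ σ = 3) → ∀ w u v : ℚ,
  padicNorm p w ≤ 1 → padicNorm p u ≤ 1 → padicNorm p v ≤ 1 → ∀ r s l l' : ℕ, 1 ≤ r → r ≤ p → 1 ≤ s → s ≤ p →
  r ≠ s → l < 3 → l' < 3 →
  padicNorm p ((p : ℚ) ^ (6 - (l : ℤ) - (l' : ℤ)) * NL p σ w u v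
    (((X + C (r : ℚ)) ^ l * oth p r 3) * ((X + C (s : ℚ)) ^ l' * oth p s 3))) ≤ (p : ℚ)⁻¹

/-- the local determinant -/
def Dl (m0 a b c : ℕ) (w : ℚ) : ℚ := (Matrix.of fun l l' : Fin 3 => Fm m0 a b c w (l.1 + l'.1)).det

/-- N5: the local determinants -/
def N5s : Prop := (∀ w : ℚ, w ≠ -3 → Dl 1 0 0 0 w ≠ 0 ∧ Dl 1 1 0 0 w ≠ 0 ∧ Dl 1 1 1 0 w ≠ 0 ∧ Dl 1 1 1 1 w ≠ 0) ∧
  (Dl 3 0 0 0 (-3) ≠ 0 ∧ Dl 3 0 1 0 (-3) ≠ 0 ∧ Dl 3 0 1 1 (-3) ≠ 0 ∧ Dl 3 1 1 1 (-3) ≠ 0)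

/-- N6: non-vanishing -/
def NV : Prop := ∀ (σ : ℕ) (w : ℚ), (σ = 1 ∨ σ = 3) → ∃ h0 : ℕ, ∀ h : ℕ, h0 ≤ h → h.Prime →
  (if w = -3 then h % 4 ≠ σ else h % 4 = σ) → ∀ u v : ℚ, padicNorm h u ≤ 1 → padicNorm h v ≤ 1 →
  DET h σ w u v ≠ 0

/-! ### final part -/

/-- Catalan's constant -/
def GC : ℝ := ∑' j : ℕ, (-1 : ℝ) ^ j / (2 * (j : ℝ) + 1) ^ 2

/-- `ζ(3)` -/
def Z3 : ℝ := ∑' j : ℕ, 1 / ((j : ℝ) + 1) ^ 3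

/-- Z1: the values -/
def Z1s : Prop := ∀ w : ℚ,
  thX 1 w = 8 * GC + (5 / 6 + (w : ℝ) / 3) * Real.pi ^ 2 ∧ thX 3 w = -(8 * GC) + (5 / 6 + (w : ℝ) / 3) * Real.pi ^ 2 ∧
  thY 1 w = Real.pi ^ 3 + (27 + 6 * (w : ℝ)) * Z3 ∧ thY 3 w = -(Real.pi ^ 3) + (27 + 6 * (w : ℝ)) * Z3

/-- Z2: there are primes `h` in every class modulo 4, of size about `log q`, not dividing `q` -/
def Z2s : Prop := ∀ (a : ℕ), (a = 1 ∨ a = 3) → ∃ x0 : ℝ, ∀ x : ℝ, x0 ≤ x → ∀ q : ℕ, 0 < q → 20 * Real.log q ≤ x →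
  ∃ h : ℕ, h.Prime ∧ h % 4 = a ∧ x / 8 ≤ h ∧ (h : ℝ) ≤ x ∧ ¬ h ∣ q

/-- Z3: the measure, for `thX`, `thY` -/
def ZM : Prop := ∀ (σ : ℕ) (w : ℚ), (σ = 1 ∨ σ = 3) → ∃ D : ℝ, 0 < D ∧ ∀ q : ℕ, 2 ≤ q → ∀ a b : ℤ,
  Real.exp (-(D * Real.log q * Real.log (1 + Real.log q))) <
    max |thX σ w - (a : ℝ) / (q : ℝ)| |thY σ w - (b : ℝ) / (q : ℝ)|

end

end Pool.Agent.W34.GB
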