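import Pool.Agent.W34.GB.Stm

/-!
# Archimedean assembly: the basis is monic; the supremum on the lines
-/

open Polynomial Pool.Agent.H337R2 Filter Topology MeasureTheory

namespace Pool.Agent.W34.GB

noncomputable section

lemma mp_monic : ∀ n : ℕ, (mp n).Monic ∧ (mp n).natDegree = n
  | 0 => ⟨monic_one, natDegree_one⟩
  | 1 => ⟨monic_X, natDegree_X⟩
  | n + 2 => by
    obtain ⟨h1, h2⟩ := mp_monic (n + 1)
    obtain ⟨h3, h4⟩ := mp_monic n
    have e : mp (n + 2) = X * mp (n + 1) + C (((n : ℚ) + 1) * n / 16) * mp n := rfl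
    have m1 : (X * mp (n + 1)).Monic := monic_X.mul h1
    have d1 : (X * mp (n + 1)).natDegree = n + 2 := by
      rw [monic_X.natDegree_mul h1, natDegree_X, h2]
      ring
    have d2 : (C (((n : ℚ) + 1) * n / 16) * mp n).natDegree ≤ n := by
      refine (natDegree_C_mul_le _ _).trans ?_
      rw [h4]
    have hlt : (C (((n : ℚ) + 1) * n / 16) * mp n).degree < (X * mp (n + 1)).degree := by
      apply degree_lt_degree
      omega
    refine ⟨?_, ?_⟩
    · rw [e]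
      exact m1.add_of_left hlt
    · rw [e, natDegree_add_eq_left_of_degree_lt hlt, d1]

lemma Zp_monic (σ j : ℕ) : (Zp σ j).Monic ∧ (Zp σ j).natDegree = j := by
  constructor
  · exact monic_prod_of_monic _ _ fun i _ => monic_X_sub_C _
  · unfold Zp
    rw [natDegree_prod_of_monic _ _ fun i _ => monic_X_sub_C _]
    simp

lemma PJ_monic (h σ j : ℕ) : (PJ h σ j).Monic ∧ (PJ h σ j).natDegree = j := by
  unfold PJ
  split_ifs with hj
  · exact Zp_monic σ j
  · obtain ⟨h1, h2⟩ := Zp_monic σ (2 * KK h)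
    obtain ⟨h3, h4⟩ := mp_monic (j - 2 * KK h)
    have h5 : ((mp (j - 2 * KK h)).comp (X - C ((KK h : ℚ) - 1 / 4))).Monic := by
      apply h3.comp (monic_X_sub_C _)
      rw [natDegree_X_sub_C]
      norm_num
    refine ⟨h1.mul h5, ?_⟩
    rw [h1.natDegree_mul h5, h2, natDegree_comp, natDegree_X_sub_C, h4]
    omega

/-! ### the lines -/

lemma ln_add_norm (h : ℕ) (b y : ℝ) (x : ℝ) :
    ‖ln h b y + (x : ℂ)‖ ^ 2 = ((KK h : ℝ) - 1 / 2 + b / 2 + x) ^ 2 + y ^ 2 := by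
  have e : ln h b y + (x : ℂ) = (((KK h : ℝ) - 1 / 2 + b / 2 + x : ℝ) : ℂ) + y * Complex.I := by
    unfold ln
    push_cast
    ring
  rw [e, ← Complex.normSq_eq_norm_sq, Complex.normSq_add_mul_I]

/-- the admissible shifts -/
def adm (σ : ℕ) (b : ℝ) : Prop := (σ = 1 ∨ σ = 3) ∧ (b = (σ : ℝ) / 4 ∨ b = 1 / 2)

lemma adm_bd {σ : ℕ} {b : ℝ} (hb : adm σ b) : 1 / 4 ≤ b ∧ b ≤ 3 / 4 := by
  obtain ⟨hσ, hb⟩ := hb
  rcases hσ with rfl | rfl <;> rcases hb with rfl | rfl <;> norm_num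

lemma zn_bd {σ : ℕ} (hσ : σ = 1 ∨ σ = 3) (l : ℕ) :
    ((l / 2 : ℕ) : ℝ) + 1 / 4 ≤ ((zn σ l : ℚ) : ℝ) ∧ ((zn σ l : ℚ) : ℝ) ≤ ((l / 2 : ℕ) : ℝ) + 3 / 4 := by
  have key : ((l / 2 : ℕ) : ℚ) + 1 / 4 ≤ zn σ l ∧ zn σ l ≤ ((l / 2 : ℕ) : ℚ) + 3 / 4 := by
    unfold zn
    rcases hσ with rfl | rfl
    · split_ifs
      · rw [min_eq_left (by norm_num)]; constructor <;> (push_cast; linarith)
      · rw [max_eq_right (by norm_num)]; constructor <;> (push_cast; linarith)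
    · split_ifs
      · rw [min_eq_right (by norm_num)]; constructor <;> (push_cast; linarith)
      · rw [max_eq_left (by norm_num)]; constructor <;> (push_cast; linarith)
  constructor
  · have := (Rat.cast_le (K := ℝ)).2 key.1
    push_cast at this ⊢
    linarith
  · have := (Rat.cast_le (K := ℝ)).2 key.2
    push_cast at this ⊢
    linarith

lemma aeval_Zp (σ j : ℕ) (z : ℂ) : aeval z (Zp σ j) = ∏ i ∈ Finset.range j, (z - ((zn σ i : ℚ) : ℂ)) := by
  unfold Zp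
  rw [map_prod]
  apply Finset.prod_congr rfl
  intro i _
  rw [map_sub, aeval_X, aeval_C]
  rfl

lemma prod_pair (K : ℕ) (f : ℕ → ℝ) :
    ∏ i ∈ Finset.range (2 * K), f (i / 2) = (∏ v ∈ Finset.range K, f v) ^ 2 := by
  induction K with
  | zero => simp
  | succ K ih =>
    rw [show 2 * (K + 1) = 2 * K + 1 + 1 by ring, Finset.prod_range_succ, Finset.prod_range_succ, ih,
      Finset.prod_range_succ]
    have e1 : 2 * K / 2 = K := by omega
    have e2 : (2 * K + 1) / 2 = K := by omega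
    rw [e1, e2]
    ring

/-- the supremum of `|R Z^2|` -/
def A3b : Prop := ∀ᶠ h : ℕ in atTop, ∀ (σ : ℕ) (b y : ℝ), adm σ b →
  ‖Rc h (ln h b y)‖ * ‖aeval (ln h b y) (Zp σ (2 * KK h))‖ ^ 2 ≤ Real.exp (sR h)

theorem A3b_of (hA3 : A3s) : A3b := by
  filter_upwards [hA3, eventually_ge_atTop 3] with h h3 hh
  intro σ b y hb
  obtain ⟨hb1, hb2⟩ := adm_bd hb
  have hK : 1 ≤ KK h := by unfold KK; omega
  have hK' : (1 : ℝ) ≤ KK h := by exact_mod_cast hK
  have hy := h3 y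
  have hy2 : 0 ≤ y ^ 2 := sq_nonneg y
  -- the numerator
  have hZ : ‖aeval (ln h b y) (Zp σ (2 * KK h))‖ ^ 2 ≤
      (∏ m ∈ Finset.Icc 1 (KK h), ((m : ℝ) ^ 2 + y ^ 2)) ^ 2 := by
    rw [aeval_Zp, norm_prod, ← Finset.prod_pow]
    have h1 : ∀ i ∈ Finset.range (2 * KK h), ‖ln h b y - ((zn σ i : ℚ) : ℂ)‖ ^ 2 ≤
        ((KK h : ℝ) - ((i / 2 : ℕ) : ℝ)) ^ 2 + y ^ 2 := by
      intro i hi
      rw [Finset.mem_range] at hi
      have e : ln h b y - ((zn σ i : ℚ) : ℂ) = ln h b y + ((-((zn σ i : ℚ) : ℝ) : ℝ) : ℂ) := by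
        push_cast
        ring
      rw [e, ln_add_norm]
      obtain ⟨z1, z2⟩ := zn_bd hb.1 i
      have h4 : ((i / 2 : ℕ) : ℝ) + 1 ≤ KK h := by
        have : i / 2 + 1 ≤ KK h := by omega
        exact_mod_cast this
      have h5 : |(KK h : ℝ) - 1 / 2 + b / 2 + -((zn σ i : ℚ) : ℝ)| ≤ |(KK h : ℝ) - ((i / 2 : ℕ) : ℝ)| := by
        rw [abs_of_nonneg (by linarith : (0 : ℝ) ≤ (KK h : ℝ) - ((i / 2 : ℕ) : ℝ)), abs_le]
        constructor <;> linarith
      have h6 := sq_le_sq.2 h5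
      linarith
    calc ∏ i ∈ Finset.range (2 * KK h), ‖ln h b y - ((zn σ i : ℚ) : ℂ)‖ ^ 2
        ≤ ∏ i ∈ Finset.range (2 * KK h), (((KK h : ℝ) - ((i / 2 : ℕ) : ℝ)) ^ 2 + y ^ 2) :=
          Finset.prod_le_prod (fun i _ => by positivity) h1
      _ = (∏ v ∈ Finset.range (KK h), (((KK h : ℝ) - (v : ℝ)) ^ 2 + y ^ 2)) ^ 2 := by
          rw [prod_pair (KK h) (fun v => ((KK h : ℝ) - (v : ℝ)) ^ 2 + y ^ 2)]
      _ = (∏ m ∈ Finset.Icc 1 (KK h), ((m : ℝ) ^ 2 + y ^ 2)) ^ 2 := by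
          congr 1
          apply Finset.prod_bij (fun v _ => KK h - v)
          · intro v hv
            rw [Finset.mem_range] at hv
            rw [Finset.mem_Icc]
            omega
          · intro a ha c hc hac
            rw [Finset.mem_range] at ha hc
            omega
          · intro m hm
            rw [Finset.mem_Icc] at hm
            exact ⟨KK h - m, Finset.mem_range.2 (by omega), by omega⟩
          · intro v hv
            rw [Finset.mem_range] at hv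
            rw [Nat.cast_sub hv.le]
  -- the denominator
  have hden0 : ∀ k ∈ Finset.Icc 1 (2 * h), (0 : ℝ) < (((KK h + (k - 1) : ℕ) : ℝ)) ^ 2 + y ^ 2 := by
    intro k _
    have : (1 : ℝ) ≤ ((KK h + (k - 1) : ℕ) : ℝ) := by exact_mod_cast (by omega : 1 ≤ KK h + (k - 1))
    positivity
  have hD : (∏ m ∈ Finset.Ico (KK h) (KK h + 2 * h), ((m : ℝ) ^ 2 + y ^ 2)) ≤
      ‖∏ k ∈ Finset.Icc 1 (2 * h), (ln h b y + (k : ℂ))‖ ^ 2 := by
    rw [norm_prod, ← Finset.prod_pow]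
    have e1 : ∏ m ∈ Finset.Ico (KK h) (KK h + 2 * h), ((m : ℝ) ^ 2 + y ^ 2) =
        ∏ k ∈ Finset.Icc 1 (2 * h), ((((KK h + (k - 1) : ℕ) : ℝ)) ^ 2 + y ^ 2) := by
      symm
      apply Finset.prod_bij (fun k _ => KK h + (k - 1))
      · intro k hk
        rw [Finset.mem_Icc] at hk
        rw [Finset.mem_Ico]
        omega
      · intro a ha c hc hac
        rw [Finset.mem_Icc] at ha hc
        omega
      · intro m hm
        rw [Finset.mem_Ico] at hm
        exact ⟨m - KK h + 1, Finset.mem_Icc.2 (by omega), by omega⟩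
      · intro k _
        rfl
    rw [e1]
    apply Finset.prod_le_prod
    · intro k hk
      exact (hden0 k hk).le
    · intro k hk
      rw [Finset.mem_Icc] at hk
      have e2 : ln h b y + (k : ℂ) = ln h b y + ((k : ℝ) : ℂ) := by push_cast; ring
      rw [e2, ln_add_norm]
      have h7 : (((KK h + (k - 1) : ℕ) : ℝ)) = (KK h : ℝ) + k - 1 := by
        rw [Nat.cast_add, Nat.cast_sub hk.1]
        push_cast
        ring
      rw [h7]
      have hk1 : (1 : ℝ) ≤ k := by exact_mod_cast hk.1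
      have h8 : (KK h : ℝ) + k - 1 ≤ (KK h : ℝ) - 1 / 2 + b / 2 + k := by linarith
      have h9 : 0 ≤ (KK h : ℝ) + k - 1 := by linarith
      nlinarith
  set Nu := ∏ m ∈ Finset.Icc 1 (KK h), ((m : ℝ) ^ 2 + y ^ 2) with hNu
  set De := ∏ m ∈ Finset.Ico (KK h) (KK h + 2 * h), ((m : ℝ) ^ 2 + y ^ 2) with hDe
  have hDe0 : 0 < De := by
    rw [hDe]
    apply Finset.prod_pos
    intro m hm
    rw [Finset.mem_Ico] at hm
    have : (1 : ℝ) ≤ m := by exact_mod_cast (by omega : 1 ≤ m)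
    positivity
  set Pn := ‖∏ k ∈ Finset.Icc 1 (2 * h), (ln h b y + (k : ℂ))‖ with hPn
  have hPn0 : 0 < Pn := by
    have h10 : 0 < Pn ^ 2 := lt_of_lt_of_le hDe0 hD
    have h11 : 0 ≤ Pn := norm_nonneg _
    rcases h11.eq_or_lt with h12 | h12
    · rw [← h12] at h10
      norm_num at h10
    · exact h12
  have hR : ‖Rc h (ln h b y)‖ = (Pn ^ 3)⁻¹ := by
    unfold Rc
    rw [norm_div, norm_one, norm_pow, one_div]
  rw [hR]
  set Zn := ‖aeval (ln h b y) (Zp σ (2 * KK h))‖ ^ 2 with hZn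
  have hZn0 : 0 ≤ Zn := by positivity
  apply le_of_sq_le_sq _ (Real.exp_pos _).le
  have e3 : Real.exp (sR h) ^ 2 = Real.exp (2 * sR h) := by
    rw [← Real.exp_nat_mul]
    push_cast
    ring_nf
  rw [e3, mul_pow, inv_pow, inv_mul_le_iff₀ (by positivity)]
  calc Zn ^ 2 ≤ (Nu ^ 2) ^ 2 := pow_le_pow_left₀ hZn0 hZ 2
    _ = Nu ^ 4 := by ring
    _ ≤ Real.exp (2 * sR h) * De ^ 3 := hy
    _ ≤ Real.exp (2 * sR h) * (Pn ^ 2) ^ 3 :=
        mul_le_mul_of_nonneg_left (pow_le_pow_left₀ hDe0.le hD 3) (Real.exp_pos _).le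
    _ = (Pn ^ 3) ^ 2 * Real.exp (2 * sR h) := by ring

end

end Pool.Agent.W34.GB
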