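import Pool.Agent.W34.GB.A6a

/-!
# Archimedean assembly: the rows on the lines
-/

open Polynomial Pool.Agent.H337R2 Filter Topology MeasureTheory

namespace Pool.Agent.W34.GB

noncomputable section

/-- the decay function -/
def GG (h : ℕ) (y : ℝ) : ℝ := (1 + y ^ 2)⁻¹ + (3 * (h : ℝ) + 2) * Real.exp (-(4 / (3 * (h : ℝ) + 2)) * |y|)

lemma GG_pos (h : ℕ) (y : ℝ) : 0 < GG h y := by
  unfold GG
  positivity

lemma cc_pos (h n : ℕ) : 0 < cc h n := by
  unfold cc
  positivity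

/-- the rows on the lines -/
def RowL : Prop := ∃ D : ℝ, 0 < D ∧ ∀ᶠ h : ℕ in atTop, ∀ (σ : ℕ) (b y : ℝ), adm σ b → ∀ j < 3 * h, 0 < aa h j →
  ‖Rc h (ln h b y)‖ * ‖aeval (ln h b y) (PJ h σ j)‖ ^ 2 * Real.exp (-(2 * Real.pi * |y|)) ≤ D * aa h j * GG h y

theorem RowL_of (hA2 : A2s) (hA3 : A3s) (hA4 : A4s) : RowL := by
  obtain ⟨D2, hD2, h2⟩ := hA2
  obtain ⟨D4, hD4, h4⟩ := hA4
  refine ⟨D2 + D4, by positivity, ?_⟩
  filter_upwards [A3b_of hA3, eventually_ge_atTop 3] with h h3 hh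
  intro σ b y hb j hj haa
  obtain ⟨hb1, hb2⟩ := adm_bd hb
  have hGG := GG_pos h y
  by_cases hjK : j < 2 * KK h
  · have e1 : PJ h σ j = Zp σ j := by unfold PJ; rw [if_pos hjK]
    have e2 : aa h j = bb h j := by unfold aa; rw [if_pos hjK]
    rw [e1, e2]
    rw [e2] at haa
    refine (h4 h σ j b y hh hb.1 hjK hb.2).trans ?_
    have h5 : (1 + y ^ 2)⁻¹ ≤ GG h y := by
      unfold GG
      have : 0 ≤ (3 * (h : ℝ) + 2) * Real.exp (-(4 / (3 * (h : ℝ) + 2)) * |y|) := by positivity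
      linarith
    have h6 : 0 ≤ (1 + y ^ 2)⁻¹ := by positivity
    calc D4 * bb h j * (1 + y ^ 2)⁻¹ ≤ D4 * bb h j * GG h y :=
          mul_le_mul_of_nonneg_left h5 (by positivity)
      _ ≤ (D2 + D4) * bb h j * GG h y := by
          apply mul_le_mul_of_nonneg_right _ hGG.le
          apply mul_le_mul_of_nonneg_right _ haa.le
          linarith
  · obtain ⟨n, hn⟩ : ∃ n, j = 2 * KK h + n := ⟨j - 2 * KK h, by omega⟩
    have hn3 : n ≤ 3 * h := by omega
    have hjn : j - 2 * KK h = n := by omega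
    have e1 : PJ h σ j = Zp σ (2 * KK h) * (mp n).comp (X - C ((KK h : ℚ) - 1 / 4)) := by
      unfold PJ; rw [if_neg hjK, hjn]
    have e2 : aa h j = cc h n := by unfold aa; rw [if_neg hjK, hjn]
    rw [e1, e2]
    have e3 : aeval (ln h b y) ((mp n).comp (X - C ((KK h : ℚ) - 1 / 4))) =
        aeval (((b / 2 - 1 / 4 : ℝ) : ℂ) + y * Complex.I) (mp n) := by
      rw [aeval_comp]
      congr 1
      rw [map_sub, aeval_X, aeval_C]
      unfold ln
      simp only [eq_ratCast]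
      push_cast
      ring_nf
    have hab : |b / 2 - 1 / 4| ≤ 1 / 8 := by
      rw [abs_le]
      constructor <;> linarith
    have hm := h2 n (b / 2 - 1 / 4) y hab
    have hs := h3 σ b y hb
    rw [map_mul, norm_mul, mul_pow, e3]
    set R := ‖Rc h (ln h b y)‖ with hR
    set Z := ‖aeval (ln h b y) (Zp σ (2 * KK h))‖ ^ 2 with hZ
    set Mn := ‖aeval (((b / 2 - 1 / 4 : ℝ) : ℂ) + y * Complex.I) (mp n)‖ ^ 2 with hMn
    have hR0 : 0 ≤ R := norm_nonneg _
    have hZ0 : 0 ≤ Z := by positivity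
    have hM0 : 0 ≤ Mn := by positivity
    have hn2 : (0 : ℝ) < (n : ℝ) + 2 := by positivity
    have hn3' : (n : ℝ) + 2 ≤ 3 * (h : ℝ) + 2 := by
      have : (n : ℝ) ≤ 3 * (h : ℝ) := by exact_mod_cast hn3
      linarith
    have hx : Real.exp ((2 * Real.pi - 4 / ((n : ℝ) + 2)) * |y|) * Real.exp (-(2 * Real.pi * |y|)) =
        Real.exp (-(4 / ((n : ℝ) + 2)) * |y|) := by
      rw [← Real.exp_add]
      congr 1
      ring
    have hx2 : Real.exp (-(4 / ((n : ℝ) + 2)) * |y|) ≤ Real.exp (-(4 / (3 * (h : ℝ) + 2)) * |y|) := by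
      apply Real.exp_le_exp.2
      apply mul_le_mul_of_nonneg_right _ (abs_nonneg y)
      apply neg_le_neg
      exact div_le_div_of_nonneg_left (by norm_num) hn2 hn3'
    have hcc := cc_pos h n
    calc R * (Z * Mn) * Real.exp (-(2 * Real.pi * |y|))
        = (R * Z) * (Mn * Real.exp (-(2 * Real.pi * |y|))) := by ring
      _ ≤ Real.exp (sR h) * ((D2 * ((n : ℝ) + 2) * (n.factorial : ℝ) ^ 2 / 16 ^ n *
            Real.exp ((2 * Real.pi - 4 / ((n : ℝ) + 2)) * |y|)) * Real.exp (-(2 * Real.pi * |y|))) := by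
          apply mul_le_mul hs _ (by positivity) (Real.exp_pos _).le
          exact mul_le_mul_of_nonneg_right hm (Real.exp_pos _).le
      _ = D2 * cc h n * (((n : ℝ) + 2) * Real.exp (-(4 / ((n : ℝ) + 2)) * |y|)) := by
          rw [mul_assoc (D2 * ((n : ℝ) + 2) * (n.factorial : ℝ) ^ 2 / 16 ^ n), hx]
          unfold cc
          ring
      _ ≤ D2 * cc h n * GG h y := by
          apply mul_le_mul_of_nonneg_left _ (by positivity)
          unfold GG
          have h7 : ((n : ℝ) + 2) * Real.exp (-(4 / ((n : ℝ) + 2)) * |y|) ≤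
              (3 * (h : ℝ) + 2) * Real.exp (-(4 / (3 * (h : ℝ) + 2)) * |y|) :=
            mul_le_mul hn3' hx2 (Real.exp_pos _).le (by positivity)
          have h8 : 0 ≤ (1 + y ^ 2)⁻¹ := by positivity
          linarith
      _ ≤ (D2 + D4) * cc h n * GG h y := by
          apply mul_le_mul_of_nonneg_right _ hGG.le
          apply mul_le_mul_of_nonneg_right _ hcc.le
          linarith

/-- the product of two rows on the lines -/
lemma row_pair {h : ℕ} {z : ℂ} {y D G : ℝ} {P Q : ℚ[X]} {α β : ℝ} (hD : 0 < D) (hG : 0 < G) (hα : 0 < α)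
    (hβ : 0 < β)
    (h1 : ‖Rc h z‖ * ‖aeval z P‖ ^ 2 * Real.exp (-(2 * Real.pi * |y|)) ≤ D * α * G)
    (h2 : ‖Rc h z‖ * ‖aeval z Q‖ ^ 2 * Real.exp (-(2 * Real.pi * |y|)) ≤ D * β * G) :
    ‖Rc h z‖ * ‖aeval z (P * Q)‖ * Real.exp (-(2 * Real.pi * |y|)) ≤ D * Real.sqrt (α * β) * G := by
  rw [map_mul, norm_mul]
  set R := ‖Rc h z‖
  set p := ‖aeval z P‖
  set q := ‖aeval z Q‖
  set E := Real.exp (-(2 * Real.pi * |y|))
  have hR : 0 ≤ R := norm_nonneg _
  have hp : 0 ≤ p := norm_nonneg _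
  have hq : 0 ≤ q := norm_nonneg _
  have hE : 0 < E := Real.exp_pos _
  apply le_of_sq_le_sq _ (by positivity)
  calc (R * (p * q) * E) ^ 2 = (R * p ^ 2 * E) * (R * q ^ 2 * E) := by ring
    _ ≤ (D * α * G) * (D * β * G) := mul_le_mul h1 h2 (by positivity) (by positivity)
    _ = (D * Real.sqrt (α * β) * G) ^ 2 := by
        rw [mul_pow, mul_pow, Real.sq_sqrt (by positivity)]
        ring

/-- the decay function is integrable -/
lemma GG_int (h : ℕ) : Integrable (GG h) ∧ ∫ y : ℝ, GG h y = Real.pi + (3 * (h : ℝ) + 2) ^ 2 / 2 := by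
  have ha : (0 : ℝ) < 4 / (3 * (h : ℝ) + 2) := by positivity
  have i1 : Integrable (fun y : ℝ => (1 + y ^ 2)⁻¹) := integrable_inv_one_add_sq
  have i2 : Integrable (fun y : ℝ => Real.exp (-(4 / (3 * (h : ℝ) + 2)) * |y|)) := by
    rw [← integrableOn_univ, ← Set.Iic_union_Ioi (a := (0 : ℝ)), integrableOn_union]
    constructor
    · have h1 : IntegrableOn (fun y : ℝ => Real.exp ((4 / (3 * (h : ℝ) + 2)) * y)) (Set.Iic 0) :=
        integrableOn_exp_mul_Iic ha 0
      refine h1.congr_fun (fun y hy => ?_) measurableSet_Iic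
      simp only
      rw [abs_of_nonpos hy]
      congr 1
      ring
    · have h1 : IntegrableOn (fun y : ℝ => Real.exp (-(4 / (3 * (h : ℝ) + 2)) * y)) (Set.Ioi 0) :=
        integrableOn_exp_mul_Ioi (by linarith) 0
      refine h1.congr_fun (fun y hy => ?_) measurableSet_Ioi
      simp only
      rw [abs_of_pos hy]
  have e2 : ∫ y : ℝ, Real.exp (-(4 / (3 * (h : ℝ) + 2)) * |y|) = (3 * (h : ℝ) + 2) / 2 := by
    rw [integral_comp_abs (f := fun x => Real.exp (-(4 / (3 * (h : ℝ) + 2)) * x))]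
    rw [integral_exp_mul_Ioi (by linarith : -(4 / (3 * (h : ℝ) + 2)) < 0) 0]
    rw [mul_zero, Real.exp_zero]
    have h3 : (3 * (h : ℝ) + 2) ≠ 0 := by positivity
    field_simp
    norm_num
  have e : GG h = fun y : ℝ => (1 + y ^ 2)⁻¹ + (3 * (h : ℝ) + 2) * Real.exp (-(4 / (3 * (h : ℝ) + 2)) * |y|) := by
    funext y; rfl
  rw [e]
  refine ⟨i1.add (i2.const_mul _), ?_⟩
  rw [integral_add i1 (i2.const_mul _), integral_univ_inv_one_add_sq, integral_const_mul, e2]
  ring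

end

end Pool.Agent.W34.GB
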