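import Pool.Agent.W34.GB.A6b
import Pool.Agent.H387R3.QG.B0s
import Pool.Agent.H336R2.HD.A1
import Pool.Agent.H336R2.HD.A3

/-!
# Archimedean assembly: the entries and the determinant
-/

open Polynomial Pool.Agent.H337R2 Filter Topology MeasureTheory

namespace Pool.Agent.W34.GB

noncomputable section

lemma adm_ker {σ : ℕ} {b : ℝ} (hb : adm σ b) : ∃ D : ℝ, 0 < D ∧ ∀ y : ℝ,
    |ker b y| ≤ D * Real.exp (-(2 * Real.pi * |y|)) := by
  obtain ⟨hb1, hb2⟩ := adm_bd hb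
  have h0 : 0 < b := by linarith
  have h1 : b < 1 := by linarith
  have h2 := Pool.Agent.H387R3.QG.onecos h0 h1
  refine ⟨2 * (1 + (1 + Real.cos (Real.pi * b))⁻¹), by positivity, fun y => ?_⟩
  have h3 := Pool.Agent.H387R3.QG.kerb_le h0 h1 y
  have e : ker b y = Pool.Agent.H387R3.QG.kerb b y := rfl
  rw [e]
  refine h3.trans ?_
  have h4 : Real.exp (2 * Real.pi * |y|) / 2 ≤ Real.cosh (2 * Real.pi * y) := by
    have h5 : Real.cosh (2 * Real.pi * y) = Real.cosh (2 * Real.pi * |y|) := by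
      rcases abs_cases y with ⟨h, _⟩ | ⟨h, _⟩
      · rw [h]
      · rw [h, mul_neg, Real.cosh_neg]
    rw [h5, Real.cosh_eq]
    have := Real.exp_pos (-(2 * Real.pi * |y|))
    linarith
  have h6 : (Real.cosh (2 * Real.pi * y))⁻¹ ≤ 2 * Real.exp (-(2 * Real.pi * |y|)) := by
    rw [Real.exp_neg]
    have h7 := Real.exp_pos (2 * Real.pi * |y|)
    have h8 : (Real.cosh (2 * Real.pi * y))⁻¹ ≤ (Real.exp (2 * Real.pi * |y|) / 2)⁻¹ :=
      inv_anti₀ (by positivity) h4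
    refine h8.trans (le_of_eq ?_)
    field_simp
  have h9 : 0 ≤ 1 + (1 + Real.cos (Real.pi * b))⁻¹ := by positivity
  calc (1 + (1 + Real.cos (Real.pi * b))⁻¹) * (Real.cosh (2 * Real.pi * y))⁻¹
      ≤ (1 + (1 + Real.cos (Real.pi * b))⁻¹) * (2 * Real.exp (-(2 * Real.pi * |y|))) :=
        mul_le_mul_of_nonneg_left h6 h9
    _ = _ := by ring

lemma int_GG_le {h : ℕ} (hh : 3 ≤ h) : ∫ y : ℝ, GG h y ≤ 8 * (h : ℝ) ^ 2 := by
  rw [(GG_int h).2]
  have h1 : (3 : ℝ) ≤ h := by exact_mod_cast hh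
  have h2 : Real.pi ≤ 4 := Real.pi_le_four
  nlinarith

/-- the line integrals -/
lemma line_bd {h σ : ℕ} {b : ℝ} (hb : adm σ b) {Dk DL : ℝ} (hDk : 0 < Dk) (hDL : 0 < DL)
    (hk : ∀ y : ℝ, |ker b y| ≤ Dk * Real.exp (-(2 * Real.pi * |y|))) (hh : 3 ≤ h)
    {P Q : ℚ[X]} {α β : ℝ} (hα : 0 < α) (hβ : 0 < β)
    (h1 : ∀ y : ℝ, ‖Rc h (ln h b y)‖ * ‖aeval (ln h b y) P‖ ^ 2 * Real.exp (-(2 * Real.pi * |y|)) ≤ DL * α * GG h y)
    (h2 : ∀ y : ℝ, ‖Rc h (ln h b y)‖ * ‖aeval (ln h b y) Q‖ ^ 2 * Real.exp (-(2 * Real.pi * |y|)) ≤ DL * β * GG h y) :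
    ‖∫ y : ℝ, Rc h (ln h b y) * aeval (ln h b y) (P * Q) * ((ker b y : ℝ) : ℂ)‖ ≤
      8 * Dk * DL * (h : ℝ) ^ 2 * Real.sqrt (α * β) := by
  have _ := hb
  have hG := (GG_int h).1
  have hbound : ∀ y : ℝ, ‖Rc h (ln h b y) * aeval (ln h b y) (P * Q) * ((ker b y : ℝ) : ℂ)‖ ≤
      Dk * DL * Real.sqrt (α * β) * GG h y := by
    intro y
    have h3 := row_pair hDL (GG_pos h y) hα hβ (h1 y) (h2 y)
    rw [norm_mul, norm_mul, Complex.norm_real, Real.norm_eq_abs]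
    have h4 : 0 ≤ ‖Rc h (ln h b y)‖ * ‖aeval (ln h b y) (P * Q)‖ := by positivity
    calc ‖Rc h (ln h b y)‖ * ‖aeval (ln h b y) (P * Q)‖ * |ker b y|
        ≤ ‖Rc h (ln h b y)‖ * ‖aeval (ln h b y) (P * Q)‖ * (Dk * Real.exp (-(2 * Real.pi * |y|))) :=
          mul_le_mul_of_nonneg_left (hk y) h4
      _ = Dk * (‖Rc h (ln h b y)‖ * ‖aeval (ln h b y) (P * Q)‖ * Real.exp (-(2 * Real.pi * |y|))) := by ring
      _ ≤ Dk * (DL * Real.sqrt (α * β) * GG h y) := mul_le_mul_of_nonneg_left h3 hDk.le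
      _ = _ := by ring
  have h5 : Integrable (fun y : ℝ => Dk * DL * Real.sqrt (α * β) * GG h y) := hG.const_mul _
  refine (norm_integral_le_of_norm_le h5 (Filter.Eventually.of_forall hbound)).trans ?_
  rw [integral_const_mul]
  have h6 := int_GG_le hh
  have h7 : 0 ≤ Dk * DL * Real.sqrt (α * β) := by positivity
  calc Dk * DL * Real.sqrt (α * β) * ∫ y : ℝ, GG h y ≤ Dk * DL * Real.sqrt (α * β) * (8 * (h : ℝ) ^ 2) :=
        mul_le_mul_of_nonneg_left h6 h7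
    _ = _ := by ring

lemma Zp_zero {σ j l : ℕ} (hl : l < j) : (Zp σ j).eval (zn σ l) = 0 := by
  unfold Zp
  rw [eval_prod]
  apply Finset.prod_eq_zero (Finset.mem_range.2 hl)
  simp

lemma zn_node {σ : ℕ} (hσ : σ = 1 ∨ σ = 3) (l : ℕ) :
    (∃ l', l' < 2 * (l + 1) ∧ zn σ l' = (l : ℚ) + (σ : ℚ) / 4) ∧
    (∃ l', l' < 2 * (l + 1) ∧ zn σ l' = (l : ℚ) + 1 / 2) := by
  have e0 : 2 * l / 2 = l := by omega
  have e1 : (2 * l + 1) / 2 = l := by omega
  have e2 : 2 * l % 2 = 0 := by omega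
  have e3 : (2 * l + 1) % 2 = 1 := by omega
  have z0 : zn σ (2 * l) = (l : ℚ) + min ((σ : ℚ) / 4) (1 / 2) := by
    unfold zn
    rw [e0, e2, if_pos rfl]
  have z1 : zn σ (2 * l + 1) = (l : ℚ) + max ((σ : ℚ) / 4) (1 / 2) := by
    unfold zn
    rw [e1, e3, if_neg (by norm_num)]
  rcases hσ with rfl | rfl
  · refine ⟨⟨2 * l, by omega, ?_⟩, ⟨2 * l + 1, by omega, ?_⟩⟩
    · rw [z0, min_eq_left (by norm_num)]
    · rw [z1, max_eq_right (by norm_num)]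
  · refine ⟨⟨2 * l + 1, by omega, ?_⟩, ⟨2 * l, by omega, ?_⟩⟩
    · rw [z1, max_eq_left (by norm_num)]
    · rw [z0, min_eq_right (by norm_num)]

/-- one zone node -/
lemma zone_one (hz : A4z) {h σ : ℕ} (hh : 3 ≤ h) (hσ : σ = 1 ∨ σ = 3) {i j : ℕ} (hai : 0 < aa h i)
    (haj : 0 < aa h j) {l : ℕ} (hl : l < 2 * KK h) :
    |((Rq h (zn σ l) * (PJ h σ i * PJ h σ j).eval (zn σ l) : ℚ) : ℝ)| ≤ Real.sqrt (aa h i * aa h j) := by
  by_cases hi : i < 2 * KK h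
  · by_cases hj : j < 2 * KK h
    · have e1 : PJ h σ i = Zp σ i := by unfold PJ; rw [if_pos hi]
      have e2 : aa h i = bb h i := by unfold aa; rw [if_pos hi]
      have e3 : PJ h σ j = Zp σ j := by unfold PJ; rw [if_pos hj]
      have e4 : aa h j = bb h j := by unfold aa; rw [if_pos hj]
      rw [e2] at hai ⊢
      rw [e4] at haj ⊢
      rw [e1, e3, eval_mul]
      have h1 := hz h σ i l hh hσ hi hl
      have h2 := hz h σ j l hh hσ hj hl
      push_cast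
      set R := ((Rq h (zn σ l) : ℚ) : ℝ)
      set p := (((Zp σ i).eval (zn σ l) : ℚ) : ℝ)
      set q := (((Zp σ j).eval (zn σ l) : ℚ) : ℝ)
      rw [← Real.sqrt_sq_eq_abs]
      apply Real.sqrt_le_sqrt
      calc (R * (p * q)) ^ 2 = (|R| * p ^ 2) * (|R| * q ^ 2) := by
            have : |R| * |R| = R * R := abs_mul_abs_self R
            calc (R * (p * q)) ^ 2 = (R * R) * (p ^ 2 * q ^ 2) := by ring
              _ = (|R| * |R|) * (p ^ 2 * q ^ 2) := by rw [this]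
              _ = _ := by ring
        _ ≤ bb h i * bb h j := mul_le_mul h1 h2 (by positivity) (by positivity)
    · have e3 : PJ h σ j = Zp σ (2 * KK h) * (mp (j - 2 * KK h)).comp (X - C ((KK h : ℚ) - 1 / 4)) := by
        unfold PJ; rw [if_neg hj]
      rw [e3, eval_mul, eval_mul, Zp_zero hl]
      simp
  · have e3 : PJ h σ i = Zp σ (2 * KK h) * (mp (i - 2 * KK h)).comp (X - C ((KK h : ℚ) - 1 / 4)) := by
      unfold PJ; rw [if_neg hi]
    rw [e3, eval_mul, eval_mul, Zp_zero hl]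
    simp

end

end Pool.Agent.W34.GB
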