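import Pool.Agent.H337R2.PAdic

/-!
# A pair of numbers attached to Catalan's constant: definitions

`R(t) = 1 / ∏_{k=1}^{2h} (t+k)^3`, `σ = 1` or `3`, `w` rational,
`L(P) = ∑_{v ≥ 0} (R P)(v + σ/4) + w ∑_{v ≥ 0} (R P)(v + 1/2) - (1 + w) ∑_{v ≥ h/3} (R P)(v)`,
values in `ℚ + ℚ thX + ℚ thY`, `thX = 8 G + r π²`, `thY = π³ + (12 + 18 r) ζ(3)` for `σ = 1`, `w = 3 r - 5/2`.
-/

open Polynomial Pool.Agent.H337R2

namespace Pool.Agent.W34.GB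

noncomputable section

/-- the poles `1, …, 2h` -/
def sN (h : ℕ) : Finset ℕ := Finset.Icc 1 (2 * h)

/-- all poles have order 3 -/
def m3 : ℕ → ℕ := fun _ => 3

/-- start of the integer class -/
def KK (h : ℕ) : ℕ := h / 3

/-- partial sums: quarter nodes, `w` times half nodes, `-(1+w)` times integer nodes -/
def fw (σ K : ℕ) (w : ℚ) (i k : ℕ) : ℚ :=
  ∑ j ∈ Finset.range k, 1 / ((j : ℚ) + (σ : ℚ) / 4) ^ i +
    w * ∑ j ∈ Finset.range k, 1 / ((j : ℚ) + 1 / 2) ^ i -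
    (1 + w) * ∑ j ∈ Finset.Ico 1 (k + K), 1 / (j : ℚ) ^ i

/-- the number of weight 2 -/
def thX (σ : ℕ) (w : ℚ) : ℝ :=
  ∑' j : ℕ, (1 / ((j : ℝ) + (σ : ℝ) / 4) ^ 2 + (w : ℝ) / ((j : ℝ) + 1 / 2) ^ 2 - (1 + (w : ℝ)) / ((j : ℝ) + 1) ^ 2)

/-- the number of weight 3 -/
def thY (σ : ℕ) (w : ℚ) : ℝ :=
  ∑' j : ℕ, (1 / ((j : ℝ) + (σ : ℝ) / 4) ^ 3 + (w : ℝ) / ((j : ℝ) + 1 / 2) ^ 3 - (1 + (w : ℝ)) / ((j : ℝ) + 1) ^ 3)

/-- the linear form as a function of the numerator (`u = thX`, `v = thY`) -/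
def xf (h σ : ℕ) (w u v : ℚ) (P : ℚ[X]) : ℚ :=
  ∑ k ∈ sN h, (pa (sN h) m3 P k 3 * (v - fw σ (KK h) w 3 k) +
    pa (sN h) m3 P k 2 * (u - fw σ (KK h) w 2 k) - pa (sN h) m3 P k 1 * fw σ (KK h) w 1 k)

lemma pa_add (s : Finset ℕ) (μ : ℕ → ℕ) (P Q : ℚ[X]) (k i : ℕ) :
    pa s μ (P + Q) k i = pa s μ P k i + pa s μ Q k i := by
  unfold pa
  split_ifs
  · unfold pfc; rw [map_add, add_mul, map_add]
  · simp

lemma pa_C_mul (s : Finset ℕ) (μ : ℕ → ℕ) (c : ℚ) (P : ℚ[X]) (k i : ℕ) :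
    pa s μ (C c * P) k i = c * pa s μ P k i := by
  unfold pa
  split_ifs
  · unfold pfc; rw [(TS (-(k : ℚ))).map_mul, TS_C, mul_assoc, PowerSeries.coeff_C_mul]
  · simp

/-- the functional `L` -/
def NL (h σ : ℕ) (w u v : ℚ) : ℚ[X] →ₗ[ℚ] ℚ where
  toFun P := xf h σ w u v P
  map_add' P Q := by
    unfold xf
    rw [← Finset.sum_add_distrib]
    apply Finset.sum_congr rfl
    intro k _
    rw [pa_add, pa_add, pa_add]
    ring
  map_smul' c P := by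
    rw [Polynomial.smul_eq_C_mul]
    unfold xf
    simp only [pa_C_mul, RingHom.id_apply, smul_eq_mul]
    rw [Finset.mul_sum]
    apply Finset.sum_congr rfl
    intro k _
    ring

lemma NL_apply (h σ : ℕ) (w u v : ℚ) (P : ℚ[X]) : NL h σ w u v P = xf h σ w u v P := rfl

/-- the Hankel determinant -/
def DET (h σ : ℕ) (w u v : ℚ) : ℚ :=
  (Matrix.of fun i j : Fin (3 * h) => NL h σ w u v (X ^ (i.1 + j.1))).det

/-- `q` is a common denominator -/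
def UInt (q : ℕ) (w u v : ℚ) : Prop :=
  0 < q ∧ (∃ z : ℤ, (q : ℚ) * w = z) ∧ (∃ z : ℤ, (q : ℚ) * u = z) ∧ ∃ z : ℤ, (q : ℚ) * v = z

/-! ### p-adic part -/

/-- least `j` with `p ∣ 4 j + σ` (for `p` odd, `σ ∈ {1, 3}`) -/
def j0 (σ p : ℕ) : ℕ := if p % 4 = σ then (p - σ) / 4 else (3 * p - σ) / 4

/-- first threshold -/
def t1 (σ p : ℕ) : ℕ := min (j0 σ p) ((p - 1) / 2)

/-- second threshold -/
def t2 (σ p : ℕ) : ℕ := max (j0 σ p) ((p - 1) / 2)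

/-- exponent of a large prime -/
def EB (h σ p : ℕ) : ℕ := 3 * (2 * h - t1 σ p) + (2 * h - t2 σ p)

/-- exponent of a medium prime -/
def EM (h σ p : ℕ) : ℕ :=
  ∑ r ∈ (Finset.Icc 1 p).filter (fun r => r + p ≤ 2 * h ∨ t1 σ p < r), (3 * ((2 * h - r) / p + 1) + 1) ^ 2 / 4

/-- the superfactorial -/
def sfac (h : ℕ) : ℕ := ∏ i ∈ Finset.range (3 * h), i.factorial

/-- exponent of a small prime -/
def ES (C h p : ℕ) : ℕ := 2 * padicValNat p (sfac h) + C * h * (Nat.log p (10 * h + 8) + 1)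

/-- the primes that matter -/
def PQ (h : ℕ) : Finset ℕ := (Finset.range (8 * h + 4)).filter Nat.Prime

/-! ### archimedean part -/

/-- `R` on `ℚ` -/
def Rq (h : ℕ) (x : ℚ) : ℚ := 1 / (∏ k ∈ Finset.Icc 1 (2 * h), (x + k)) ^ 3

/-- `R` on `ℂ` -/
def Rc (h : ℕ) (z : ℂ) : ℂ := 1 / (∏ k ∈ Finset.Icc 1 (2 * h), (z + k)) ^ 3

/-- the kernel `sin(π b)/(cos(π b) + cosh(2 π y))` -/
def ker (b y : ℝ) : ℝ := Real.sin (Real.pi * b) / (Real.cos (Real.pi * b) + Real.cosh (2 * Real.pi * y))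

/-- the line for the shift `b` (`b = σ/4` or `1/2`) -/
def ln (h : ℕ) (b y : ℝ) : ℂ := (((KK h : ℝ) - 1 / 2 + b / 2 : ℝ) : ℂ) + y * Complex.I

/-- the zone nodes `σ/4, 1/2, 1 + σ/4, 3/2, …` in increasing order -/
def zn (σ l : ℕ) : ℚ :=
  ((l / 2 : ℕ) : ℚ) + (if l % 2 = 0 then min ((σ : ℚ) / 4) (1 / 2) else max ((σ : ℚ) / 4) (1 / 2))

/-- product over the first `j` zone nodes -/
def Zp (σ j : ℕ) : ℚ[X] := ∏ i ∈ Finset.range j, (X - C (zn σ i))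

/-- monic polynomials: `(n!/4^n)` times the coefficient of `z^n` in `((1+z)/(1-z))^(2t)` -/
def mp : ℕ → ℚ[X]
  | 0 => 1
  | 1 => X
  | n + 2 => X * mp (n + 1) + C (((n : ℚ) + 1) * n / 16) * mp n

/-- the basis -/
def PJ (h σ j : ℕ) : ℚ[X] :=
  if j < 2 * KK h then Zp σ j else Zp σ (2 * KK h) * (mp (j - 2 * KK h)).comp (X - C ((KK h : ℚ) - 1 / 4))

/-- size of row `j < 2 K` -/
def bb (h j : ℕ) : ℝ :=
  (∏ i ∈ Finset.range j, ((KK h : ℝ) - (i : ℝ) / 2) ^ 2) / (∏ k ∈ Finset.Icc 1 (2 * h), ((j : ℝ) / 2 + k)) ^ 3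

/-- logarithm of the supremum of `|R Z^2|` on the lines (upper bound) -/
def sR (h : ℕ) : ℝ := (4 * (KK h : ℝ) - 6 * h) * Real.log h - 23 / 10 * h

/-- size of row `2 K + n` -/
def cc (h n : ℕ) : ℝ := Real.exp (sR h) * (n.factorial : ℝ) ^ 2 / 16 ^ n

/-- size of row `j` -/
def aa (h j : ℕ) : ℝ := if j < 2 * KK h then bb h j else cc h (j - 2 * KK h)

/-! ### non-vanishing: `p = h` prime -/

/-- `4 j0 + σ = mm * p` -/
def mm (σ p : ℕ) : ℕ := if p % 4 = σ then 1 else 3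

/-- `1` if `r > j0` -/
def d1 (σ p r : ℕ) : ℕ := if j0 σ p < r then 1 else 0

/-- `1` if `r > (p-1)/2` -/
def d2 (p r : ℕ) : ℕ := if (p - 1) / 2 < r then 1 else 0

/-- `1` if `r + p/3 > p` -/
def d3 (p r : ℕ) : ℕ := if p < r + KK p then 1 else 0

/-- the product over the other classes -/
def oth (p r a : ℕ) : ℚ[X] := ∏ r' ∈ (Finset.Icc 1 p).erase r, (X + C (r' : ℚ)) ^ a

/-- local power series at the site `j ∈ {0, 1}` -/
def ser (j e : ℕ) : PowerSeries ℚ :=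
  (∏ b ∈ (Finset.range 2).erase j, iv ((b : ℚ) - j) ^ 3) * (PowerSeries.X + PowerSeries.C (-(j : ℚ))) ^ e

/-- local partial sums -/
def fl (m0 a b c : ℕ) (w : ℚ) (i j : ℕ) : ℚ :=
  ∑ u ∈ Finset.range (j + a), 1 / ((u : ℚ) + (m0 : ℚ) / 4) ^ i +
    w * ∑ u ∈ Finset.range (j + b), 1 / ((u : ℚ) + 1 / 2) ^ i -
    (1 + w) * ∑ u ∈ Finset.Ico 1 (j + 1 + c), 1 / (u : ℚ) ^ i

/-- local functional, values on monomials -/
def Fm (m0 a b c : ℕ) (w : ℚ) (e : ℕ) : ℚ :=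
  - ∑ j ∈ Finset.range 2, (PowerSeries.coeff 0 (ser j e) * fl m0 a b c w 3 j +
    PowerSeries.coeff 1 (ser j e) * fl m0 a b c w 2 j + PowerSeries.coeff 2 (ser j e) * fl m0 a b c w 1 j)

end

end Pool.Agent.W34.GB
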