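import Pool.Agent.W34.GB.Stm

/-!
# The final statement, from the measure for `thX`, `thY` and the values
-/

open Real

namespace Pool.Agent.W34.GB

/-- the final statement -/
theorem final_of (hM : ZM) (hV : Z1s) (r : ℚ) :
    (∃ D : ℝ, 0 < D ∧ ∀ q : ℕ, 2 ≤ q → ∀ a b : ℤ,
      Real.exp (-(D * Real.log q * Real.log (1 + Real.log q))) <
        max |8 * GC + (r : ℝ) * Real.pi ^ 2 - (a : ℝ) / (q : ℝ)|
          |Real.pi ^ 3 + (12 + 18 * (r : ℝ)) * Z3 - (b : ℝ) / (q : ℝ)|) ∧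
    (∃ D : ℝ, 0 < D ∧ ∀ q : ℕ, 2 ≤ q → ∀ a b : ℤ,
      Real.exp (-(D * Real.log q * Real.log (1 + Real.log q))) <
        max |8 * GC - (r : ℝ) * Real.pi ^ 2 - (a : ℝ) / (q : ℝ)|
          |Real.pi ^ 3 - (12 + 18 * (r : ℝ)) * Z3 - (b : ℝ) / (q : ℝ)|) := by
  obtain ⟨v1, v2, v3, v4⟩ := hV (3 * r - 5 / 2)
  have e1 : thX 1 (3 * r - 5 / 2) = 8 * GC + (r : ℝ) * Real.pi ^ 2 := by
    rw [v1]; push_cast; ring
  have e2 : thX 3 (3 * r - 5 / 2) = -(8 * GC - (r : ℝ) * Real.pi ^ 2) := by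
    rw [v2]; push_cast; ring
  have e3 : thY 1 (3 * r - 5 / 2) = Real.pi ^ 3 + (12 + 18 * (r : ℝ)) * Z3 := by
    rw [v3]; push_cast; ring
  have e4 : thY 3 (3 * r - 5 / 2) = -(Real.pi ^ 3 - (12 + 18 * (r : ℝ)) * Z3) := by
    rw [v4]; push_cast; ring
  constructor
  · obtain ⟨D, hD, h⟩ := hM 1 (3 * r - 5 / 2) (Or.inl rfl)
    refine ⟨D, hD, fun q hq a b => ?_⟩
    have := h q hq a b
    rw [e1, e3] at this
    exact this
  · obtain ⟨D, hD, h⟩ := hM 3 (3 * r - 5 / 2) (Or.inr rfl)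
    refine ⟨D, hD, fun q hq a b => ?_⟩
    have := h q hq (-a) (-b)
    rw [e2, e4] at this
    have f1 : -(8 * GC - (r : ℝ) * Real.pi ^ 2) - ((-a : ℤ) : ℝ) / (q : ℝ) =
        -(8 * GC - (r : ℝ) * Real.pi ^ 2 - (a : ℝ) / (q : ℝ)) := by push_cast; ring
    have f2 : -(Real.pi ^ 3 - (12 + 18 * (r : ℝ)) * Z3) - ((-b : ℤ) : ℝ) / (q : ℝ) =
        -(Real.pi ^ 3 - (12 + 18 * (r : ℝ)) * Z3 - (b : ℝ) / (q : ℝ)) := by push_cast; ring
    rw [f1, f2, abs_neg, abs_neg] at this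
    exact this

/-- two rational numbers violate such a measure -/
theorem irr_of {x y : ℝ} (h : ∃ D : ℝ, 0 < D ∧ ∀ q : ℕ, 2 ≤ q → ∀ a b : ℤ,
      Real.exp (-(D * Real.log q * Real.log (1 + Real.log q))) <
        max |x - (a : ℝ) / (q : ℝ)| |y - (b : ℝ) / (q : ℝ)|) : Irrational x ∨ Irrational y := by
  by_contra hc
  rw [not_or] at hc
  obtain ⟨hx, hy⟩ := hc
  unfold Irrational at hx hy
  rw [not_not] at hx hy
  obtain ⟨s, hs⟩ := hx
  obtain ⟨t, ht⟩ := hy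
  obtain ⟨D, hD, h⟩ := h
  have hq : 2 ≤ 2 * (s.den * t.den) := by
    have := Nat.mul_pos s.den_pos t.den_pos
    omega
  have h1 := h (2 * (s.den * t.den)) hq (2 * (s.num * t.den)) (2 * (t.num * s.den))
  have hs0 : (s.den : ℝ) ≠ 0 := by exact_mod_cast s.den_pos.ne'
  have ht0 : (t.den : ℝ) ≠ 0 := by exact_mod_cast t.den_pos.ne'
  have hs1 : (s : ℝ) = (s.num : ℝ) / (s.den : ℝ) := by
    exact_mod_cast congrArg (fun z : ℚ => (z : ℝ)) (Rat.num_div_den s).symm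
  have ht1 : (t : ℝ) = (t.num : ℝ) / (t.den : ℝ) := by
    exact_mod_cast congrArg (fun z : ℚ => (z : ℝ)) (Rat.num_div_den t).symm
  have e1 : x - ((2 * (s.num * t.den) : ℤ) : ℝ) / ((2 * (s.den * t.den) : ℕ) : ℝ) = 0 := by
    rw [← hs, hs1]
    push_cast
    field_simp
    ring
  have e2 : y - ((2 * (t.num * s.den) : ℤ) : ℝ) / ((2 * (s.den * t.den) : ℕ) : ℝ) = 0 := by
    rw [← ht, ht1]
    push_cast
    field_simp
    ring
  rw [e1, e2, abs_zero, max_self] at h1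
  exact absurd h1 (not_lt.2 (Real.exp_pos _).le)

end Pool.Agent.W34.GB
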