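import Pool.Agent.W34.GB.A6d
import Pool.Agent.W34.GB.Fin
import Pool.Agent.W196.GZ.A1
import Pool.Agent.W813.GZ.A2
import Pool.Agent.W108.GZ.A3
import Pool.Agent.W748.GZ.A4
import Pool.Agent.W290.GZ.A5
import Pool.Agent.W347.GZ.A7
import Pool.Agent.W637.GZ.P1
import Pool.Agent.W392.GZ.Med
import Pool.Agent.W924.GZ.P3
import Pool.Agent.W247.GZ.P4
import Pool.Agent.W215.GZ.P5
import Pool.Agent.W346.GZ.N1
import Pool.Agent.W397.GZ.N2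
import Pool.Agent.W346.GZ.N3
import Pool.Agent.W762.GZ.N5
import Pool.Agent.W918.GZ.N6
import Pool.Agent.W293.GZ.ZOne
import Pool.Agent.W293.GZ.ZTwo
import Pool.Agent.W216.GZ.Z3

/-!
# Assembly
-/

namespace Pool.Agent.W34.GB

theorem aMain : AMain :=
  AMain_of Pool.Agent.W196.GZ.t_A1 Pool.Agent.W813.GZ.A2 Pool.Agent.W108.GZ.t_A3s Pool.Agent.W748.GZ.a4s
    Pool.Agent.W748.GZ.a4z Pool.Agent.W290.GZ.a5 Pool.Agent.W347.GZ.a7

theorem pMain : PMain :=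
  Pool.Agent.W215.GZ.PMain_of Pool.Agent.W637.GZ.Pbig_holds Pool.Agent.W392.GZ.pmed Pool.Agent.W924.GZ.T_P3
    Pool.Agent.W247.GZ.PSum_proof

theorem nV : NV :=
  Pool.Agent.W918.GZ.NV_of
    (Pool.Agent.W346.GZ.N3_of Pool.Agent.W346.GZ.n1s Pool.Agent.W397.GZ.n2 Pool.Agent.W397.GZ.n2b)
    (Pool.Agent.W346.GZ.N4_of Pool.Agent.W346.GZ.n1s Pool.Agent.W397.GZ.n2b)
    Pool.Agent.W762.GZ.n5

theorem zM : ZM := Pool.Agent.W216.GZ.ZM_of aMain pMain nV Pool.Agent.W293.GZ.z2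

theorem zOne : Z1s := Pool.Agent.W293.GZ.z1

end Pool.Agent.W34.GB
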